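import Pool.Agent.H75.NPDefs
import Pool.Agent.H68.RBDefs
import Pool.Agent.H68.RBHard

/-!
# The directed red-blue cut problem is NP-hard

Given a digraph whose arcs are red or blue and two numbers `r`, `b`, is there a nonempty proper
vertex set `X` such that the cut `δ⁺(X)` has at most `r` red and at most `b` blue arcs? This problem
is NP-hard, already for simple digraphs, with `r` and `b` written in unary.

Outline of the reduction from the clique problem (for a graph with vertex set `[N]` and cliques of
size `k ≥ 2`). Take two vertices `s`, `t`, a vertex for each edge and a vertex for each vertex of the
graph. There are blue arcs from `s` to the edges and red arcs from the vertices to `t`, and bundles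
of many red arcs from an edge to its two ends, from every vertex other than `s` to `s`, and from `t`
to every vertex other than `t`. As a cheap cut `δ⁺(X)` does not contain a bundle, `s ∈ X` and
`t ∉ X`, and `X` contains with an edge both of its ends. There are `k (k - 1) / 2` further blue arcs
from `s` to `t`. Then a cut with at most `k` red and at most `m` blue arcs, where `m` is the number
of edges, corresponds to at most `k` vertices which span at least `k (k - 1) / 2` edges. To make the
digraph simple, every vertex is replaced by a complete digraph on `k² + 2` vertices.
-/

namespace Pool.Agent.Results.MP_ac2b6c_lc.DirectedRedBlueCut

open Pool.Agent.H68.RB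

/-- The directed red-blue cut problem is NP-hard. -/
theorem result : Pool.Agent.H75.NPHard Pool.Agent.H68.RB.encInst HasCheapCut := main

end Pool.Agent.Results.MP_ac2b6c_lc.DirectedRedBlueCut
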